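import Mathlib

/-!
# MP_cb51c9_co: the greedy set avoiding `5w + 2x = 5y + 2z`
-/

set_option autoImplicit false

namespace Pool.Agent.Results.MP_cb51c9_co.GreedyFiveTwo

/-- `S` is free of `5w + 2x = 5y + 2z`: the only solutions in `S` are the trivial ones. -/
def Free (S : Set ℕ) : Prop :=
  ∀ w ∈ S, ∀ x ∈ S, ∀ y ∈ S, ∀ z ∈ S, 5 * w + 2 * x = 5 * y + 2 * z → w = y ∧ x = z

/-- `g` is the greedy sequence: `g 0 = 0`, and `g (i + 1)` is the least integer `n > g i` such that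
`{g 0, ..., g i, n}` is free. -/
def IsGreedy (g : ℕ → ℕ) : Prop :=
  g 0 = 0 ∧ ∀ i, IsLeast {n | g i < n ∧ Free (insert n (g '' Set.Iic i))} (g (i + 1))

/-- the sequence `a` with `a 0 = 0` and `a i = ⌈(5 + 7 (a 0 + ... + a (i - 1))) / 2⌉` for
`i ≥ 1` -/
def IsCeilSeq (a : ℕ → ℕ) : Prop :=
  a 0 = 0 ∧ ∀ i, 1 ≤ i → a i = ⌈((5 : ℚ) + 7 * ∑ j ∈ Finset.range i, (a j : ℚ)) / 2⌉₊

/-- the sequence `a` with `a 0 = 0` and `a i = ⌊(5 + 7 (a 0 + ... + a (i - 1))) / 2⌋` for
`i ≥ 1` -/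
def IsFloorSeq (a : ℕ → ℕ) : Prop :=
  a 0 = 0 ∧ ∀ i, 1 ≤ i → a i = ⌊((5 : ℚ) + 7 * ∑ j ∈ Finset.range i, (a j : ℚ)) / 2⌋₊

/-- the numbers `5 x + y` where `x` is a finite sum of distinct terms of `a` and `0 ≤ y ≤ 4` -/
def blocks (a : ℕ → ℕ) : Set ℕ :=
  {n | ∃ (I : Finset ℕ) (y : ℕ), y ≤ 4 ∧ n = 5 * (∑ i ∈ I, a i) + y}

/-! ### Recursions -/

/-- recursion with given rounding -/
def mkAux (r : ℕ → ℕ) : ℕ → ℕ × ℕ
  | 0 => (0, 0)
  | i + 1 => (r (5 + 7 * (mkAux r i).2), (mkAux r i).2 + r (5 + 7 * (mkAux r i).2))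

lemma mkAux_snd (r : ℕ → ℕ) (i : ℕ) :
    (mkAux r i).2 = ∑ j ∈ Finset.range (i + 1), (mkAux r j).1 := by
  induction i with
  | zero => simp [mkAux]
  | succ i ih =>
    rw [Finset.sum_range_succ, ← ih]
    simp [mkAux]

lemma exists_seq (r : ℕ → ℕ) : ∃ a : ℕ → ℕ, a 0 = 0 ∧
    ∀ i, 1 ≤ i → a i = r (5 + 7 * ∑ j ∈ Finset.range i, a j) := by
  refine ⟨fun i => (mkAux r i).1, rfl, ?_⟩
  intro i hi
  obtain ⟨i, rfl⟩ : ∃ j, i = j + 1 := ⟨i - 1, by omega⟩
  simp only [← mkAux_snd]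
  rfl

lemma ceil_half (n : ℕ) : ⌈((n : ℕ) : ℚ) / 2⌉₊ = (n + 1) / 2 := by
  rcases Nat.even_or_odd n with ⟨k, rfl⟩ | ⟨k, rfl⟩
  · have : (((k + k : ℕ)) : ℚ) / 2 = ((k : ℕ) : ℚ) := by push_cast; ring
    rw [this, Nat.ceil_natCast]
    omega
  · rw [show (2 * k + 1 + 1) / 2 = k + 1 by omega, Nat.ceil_eq_iff (by omega)]
    push_cast
    constructor
    · linarith
    · linarith

lemma floor_half (n : ℕ) : ⌊((n : ℕ) : ℚ) / 2⌋₊ = n / 2 := by
  have := Nat.floor_div_natCast (n : ℚ) 2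
  rw [Nat.floor_natCast] at this
  exact_mod_cast this

lemma ceil_bounds {a : ℕ → ℕ} (ha : IsCeilSeq a) (i : ℕ) (hi : 1 ≤ i) :
    5 + 7 * ∑ j ∈ Finset.range i, a j ≤ 2 * a i ∧ 2 * a i ≤ 6 + 7 * ∑ j ∈ Finset.range i, a j := by
  have h := ha.2 i hi
  have h2 : ((5 : ℚ) + 7 * ∑ j ∈ Finset.range i, (a j : ℚ)) / 2 =
      ((5 + 7 * ∑ j ∈ Finset.range i, a j : ℕ) : ℚ) / 2 := by push_cast; ring
  rw [h2, ceil_half] at h
  omega

/-! ### Properties of the sequence -/

section seq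

variable {a : ℕ → ℕ}

/-- the two sided bound -/
def Bd (a : ℕ → ℕ) : Prop := a 0 = 0 ∧ ∀ i, 1 ≤ i →
  5 + 7 * ∑ j ∈ Finset.range i, a j ≤ 2 * a i ∧ 2 * a i ≤ 6 + 7 * ∑ j ∈ Finset.range i, a j

lemma a_le_sum (i k : ℕ) (h : i < k) : a i ≤ ∑ j ∈ Finset.range k, a j :=
  Finset.single_le_sum (f := a) (fun _ _ => Nat.zero_le _) (Finset.mem_range.2 h)

lemma a_lt (ha : Bd a) {i k : ℕ} (h : i < k) : a i < a k := by
  have h1 := a_le_sum (a := a) i k h
  have h2 := (ha.2 k (by omega)).1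
  omega

lemma a_ge (ha : Bd a) (i : ℕ) : i ≤ a i := by
  induction i with
  | zero => omega
  | succ i ih =>
    have : a i < a (i + 1) := a_lt ha (by omega)
    omega

lemma sum_le_of_subset {I : Finset ℕ} {k : ℕ} (h : ∀ i ∈ I, i < k) :
    ∑ i ∈ I, a i ≤ ∑ i ∈ Finset.range k, a i :=
  Finset.sum_le_sum_of_subset (fun i hi => Finset.mem_range.2 (h i hi))

/-- freeness at the level of digits -/
lemma digits (ha : Bd a) (c : ℕ → ℤ) (hc : ∀ i, c i ≠ 0 → 2 ≤ |c i|) (hc' : ∀ i, |c i| ≤ 7) :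
    ∀ k, |∑ i ∈ Finset.range k, c i * a i| ≤ 4 → ∀ i, 1 ≤ i → i < k → c i = 0 := by
  intro k
  induction k with
  | zero => intro _ i _ hi; omega
  | succ k ih =>
    intro hk i hi hik
    rw [Finset.sum_range_succ] at hk
    rcases Nat.eq_zero_or_pos k with rfl | hkpos
    · omega
    have hb := (ha.2 k hkpos).1
    have hsum : |∑ i ∈ Finset.range k, c i * a i| ≤ 7 * ∑ j ∈ Finset.range k, (a j : ℤ) := by
      refine (Finset.abs_sum_le_sum_abs _ _).trans ?_
      rw [Finset.mul_sum]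
      apply Finset.sum_le_sum
      intro j _
      rw [abs_mul, abs_of_nonneg (by positivity : (0 : ℤ) ≤ (a j : ℤ))]
      exact mul_le_mul_of_nonneg_right (hc' j) (by positivity)
    have hb' : (5 : ℤ) + 7 * ∑ j ∈ Finset.range k, (a j : ℤ) ≤ 2 * a k := by exact_mod_cast hb
    have hck : c k = 0 := by
      by_contra hne
      have h1 := hc k hne
      have h2 : 2 * (a k : ℤ) ≤ |c k * a k| := by
        rw [abs_mul, abs_of_nonneg (by positivity : (0 : ℤ) ≤ (a k : ℤ))]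
        exact mul_le_mul_of_nonneg_right h1 (by positivity)
      have h3 : |c k * a k| ≤ |∑ i ∈ Finset.range k, c i * a i + c k * a k| +
          |∑ i ∈ Finset.range k, c i * a i| := by
        have := abs_sub (∑ i ∈ Finset.range k, c i * (a i : ℤ) + c k * a k)
          (∑ i ∈ Finset.range k, c i * a i)
        simpa using this
      omega
    rcases Nat.lt_succ_iff_lt_or_eq.1 hik with h | rfl
    · rw [hck, zero_mul, add_zero] at hk
      exact ih hk i hi h
    · exact hck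

/-- the indicator of a finite set -/
def ind (I : Finset ℕ) (i : ℕ) : ℤ := if i ∈ I then 1 else 0

lemma sum_ind (I : Finset ℕ) (k : ℕ) (h : ∀ i ∈ I, i < k) :
    ((∑ i ∈ I, a i : ℕ) : ℤ) = ∑ i ∈ Finset.range k, ind I i * a i := by
  simp only [ind, ite_mul, one_mul, zero_mul]
  rw [← Finset.sum_filter, Finset.filter_mem_eq_inter,
    Finset.inter_eq_right.2 (fun i hi => Finset.mem_range.2 (h i hi))]
  push_cast
  rfl

lemma blocks_free (ha : Bd a) : Free (blocks a) := by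
  rintro w ⟨Iw, w0, hw0, rfl⟩ x ⟨Ix, x0, hx0, rfl⟩ y ⟨Iy, y0, hy0, rfl⟩ z ⟨Iz, z0, hz0, rfl⟩ h
  have hx0z0 : x0 = z0 := by omega
  subst hx0z0
  set k := (Iw ∪ Ix ∪ Iy ∪ Iz).sup id + 1 with hk
  have hlt : ∀ i ∈ Iw ∪ Ix ∪ Iy ∪ Iz, i < k := by
    intro i hi
    have : id i ≤ (Iw ∪ Ix ∪ Iy ∪ Iz).sup id := Finset.le_sup hi
    simp only [id] at this
    omega
  have ew := sum_ind (a := a) Iw k (fun i hi => hlt i (by simp [hi]))
  have ex := sum_ind (a := a) Ix k (fun i hi => hlt i (by simp [hi]))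
  have ey := sum_ind (a := a) Iy k (fun i hi => hlt i (by simp [hi]))
  have ez := sum_ind (a := a) Iz k (fun i hi => hlt i (by simp [hi]))
  set c : ℕ → ℤ := fun i => 5 * (ind Iw i - ind Iy i) + 2 * (ind Ix i - ind Iz i) with hc
  have hsum : ∑ i ∈ Finset.range k, c i * a i = 5 * (((∑ i ∈ Iw, a i : ℕ) : ℤ) -
      ((∑ i ∈ Iy, a i : ℕ) : ℤ)) + 2 * (((∑ i ∈ Ix, a i : ℕ) : ℤ) -
      ((∑ i ∈ Iz, a i : ℕ) : ℤ)) := by
    rw [ew, ex, ey, ez, ← Finset.sum_sub_distrib, ← Finset.sum_sub_distrib, Finset.mul_sum,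
      Finset.mul_sum, ← Finset.sum_add_distrib]
    apply Finset.sum_congr rfl
    intro i _
    simp only [hc]
    ring
  have h01 : ∀ (I : Finset ℕ) i, ind I i = 0 ∨ ind I i = 1 := by
    intro I i
    unfold ind
    split_ifs <;> simp
  have hdig := digits ha c (by
    intro i hi
    simp only [hc] at hi ⊢
    rcases h01 Iw i with h1 | h1 <;> rcases h01 Ix i with h2 | h2 <;>
      rcases h01 Iy i with h3 | h3 <;> rcases h01 Iz i with h4 | h4 <;>
      rw [h1, h2, h3, h4] at hi ⊢ <;> revert hi <;> norm_num) (by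
    intro i
    simp only [hc]
    rcases h01 Iw i with h1 | h1 <;> rcases h01 Ix i with h2 | h2 <;>
      rcases h01 Iy i with h3 | h3 <;> rcases h01 Iz i with h4 | h4 <;>
      rw [h1, h2, h3, h4] <;> norm_num) k (by
    rw [hsum, abs_le]
    constructor <;> omega)
  have hzero : ∀ i ∈ Finset.range k, ind Iw i * (a i : ℤ) = ind Iy i * a i ∧
      ind Ix i * (a i : ℤ) = ind Iz i * a i := by
    intro i hi
    rcases Nat.eq_zero_or_pos i with rfl | hipos
    · rw [ha.1]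
      simp
    · have := hdig i hipos (Finset.mem_range.1 hi)
      simp only [hc] at this
      rcases h01 Iw i with h1 | h1 <;> rcases h01 Ix i with h2 | h2 <;>
        rcases h01 Iy i with h3 | h3 <;> rcases h01 Iz i with h4 | h4 <;>
        rw [h1, h2, h3, h4] at this ⊢ <;> revert this <;> norm_num
  have e1 : ((∑ i ∈ Iw, a i : ℕ) : ℤ) = ((∑ i ∈ Iy, a i : ℕ) : ℤ) := by
    rw [ew, ey]
    exact Finset.sum_congr rfl (fun i hi => (hzero i hi).1)
  have e2 : ((∑ i ∈ Ix, a i : ℕ) : ℤ) = ((∑ i ∈ Iz, a i : ℕ) : ℤ) := by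
    rw [ex, ez]
    exact Finset.sum_congr rfl (fun i hi => (hzero i hi).2)
  omega

/-- covering by the numbers `2 z + 5 (y - w) + e` -/
lemma cover (ha : Bd a) : ∀ k, 1 ≤ k → ∀ N : ℤ,
    -5 * (∑ j ∈ Finset.range k, a j : ℕ) - 4 ≤ N → N ≤ 7 * (∑ j ∈ Finset.range k, a j : ℕ) + 4 →
    ∃ (Z Y W : Finset ℕ) (e : ℤ), (∀ i ∈ Z, i < k) ∧ (∀ i ∈ Y, i < k) ∧ (∀ i ∈ W, i < k) ∧
      |e| ≤ 4 ∧ N = 2 * (∑ i ∈ Z, a i : ℕ) + 5 * ((∑ i ∈ Y, a i : ℕ) - (∑ i ∈ W, a i : ℕ)) + e := by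
  intro k hk
  induction k, hk using Nat.le_induction with
  | base =>
    intro N h1 h2
    refine ⟨∅, ∅, ∅, N, by simp, by simp, by simp, ?_, by simp⟩
    rw [Finset.sum_range_one, ha.1] at h1 h2
    rw [abs_le]
    constructor <;> push_cast at h1 h2 <;> omega
  | succ k hk ih =>
    intro N h1 h2
    rw [Finset.sum_range_succ] at h1 h2
    push_cast at h1 h2
    obtain ⟨hb1, hb2⟩ := ha.2 k hk
    have ih' : ∀ N' : ℤ, -5 * (∑ j ∈ Finset.range k, (a j : ℤ)) - 4 ≤ N' →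
        N' ≤ 7 * (∑ j ∈ Finset.range k, (a j : ℤ)) + 4 →
        ∃ (Z Y W : Finset ℕ) (e : ℤ), (∀ i ∈ Z, i < k) ∧ (∀ i ∈ Y, i < k) ∧ (∀ i ∈ W, i < k) ∧
          |e| ≤ 4 ∧
          N' = 2 * (∑ i ∈ Z, a i : ℕ) + 5 * ((∑ i ∈ Y, a i : ℕ) - (∑ i ∈ W, a i : ℕ)) + e := by
      intro N' h3 h4
      exact ih N' (by push_cast; exact h3) (by push_cast; exact h4)
    have hb1' : (5 : ℤ) + 7 * ∑ j ∈ Finset.range k, (a j : ℤ) ≤ 2 * a k := by exact_mod_cast hb1
    have hb2' : 2 * (a k : ℤ) ≤ 6 + 7 * ∑ j ∈ Finset.range k, (a j : ℤ) := by exact_mod_cast hb2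
    set s : ℤ := ∑ j ∈ Finset.range k, (a j : ℤ) with hs
    have hs0 : 0 ≤ s := by positivity
    -- adding the digit `k`
    have hins : ∀ I : Finset ℕ, (∀ i ∈ I, i < k) → (∀ i ∈ insert k I, i < k + 1) ∧
        (∑ i ∈ insert k I, a i) = a k + ∑ i ∈ I, a i := by
      intro I hI
      refine ⟨?_, ?_⟩
      · intro i hi
        rcases Finset.mem_insert.1 hi with rfl | hi
        · omega
        · have := hI i hi; omega
      · rw [Finset.sum_insert]
        intro h
        exact lt_irrefl _ (hI k h)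
    have hmono : ∀ I : Finset ℕ, (∀ i ∈ I, i < k) → ∀ i ∈ I, i < k + 1 :=
      fun I hI i hi => Nat.lt_succ_of_lt (hI i hi)
    rcases le_or_gt N (-5 * (a k : ℤ) + 7 * s + 4) with hN | hN
    · obtain ⟨Z, Y, W, e, hZ, hY, hW, he, hN'⟩ := ih' (N + 5 * a k) (by omega) (by omega)
      refine ⟨Z, Y, insert k W, e, hmono Z hZ, hmono Y hY, (hins W hW).1, he, ?_⟩
      rw [(hins W hW).2]
      push_cast at hN' ⊢
      linarith
    rcases le_or_gt N (-3 * (a k : ℤ) + 7 * s + 4) with hN2 | hN2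
    · obtain ⟨Z, Y, W, e, hZ, hY, hW, he, hN'⟩ := ih' (N + 3 * a k) (by omega) (by omega)
      refine ⟨insert k Z, Y, insert k W, e, (hins Z hZ).1, hmono Y hY, (hins W hW).1, he, ?_⟩
      rw [(hins W hW).2, (hins Z hZ).2]
      push_cast at hN' ⊢
      linarith
    rcases le_or_gt N (7 * s + 4) with hN3 | hN3
    · obtain ⟨Z, Y, W, e, hZ, hY, hW, he, hN'⟩ := ih' N (by omega) (by omega)
      exact ⟨Z, Y, W, e, hmono Z hZ, hmono Y hY, hmono W hW, he, hN'⟩
    rcases le_or_gt N (2 * (a k : ℤ) + 7 * s + 4) with hN4 | hN4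
    · obtain ⟨Z, Y, W, e, hZ, hY, hW, he, hN'⟩ := ih' (N - 2 * a k) (by omega) (by omega)
      refine ⟨insert k Z, Y, W, e, (hins Z hZ).1, hmono Y hY, hmono W hW, he, ?_⟩
      rw [(hins Z hZ).2]
      push_cast at hN' ⊢
      linarith
    rcases le_or_gt N (5 * (a k : ℤ) + 7 * s + 4) with hN5 | hN5
    · obtain ⟨Z, Y, W, e, hZ, hY, hW, he, hN'⟩ := ih' (N - 5 * a k) (by omega) (by omega)
      refine ⟨Z, insert k Y, W, e, hmono Z hZ, (hins Y hY).1, hmono W hW, he, ?_⟩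
      rw [(hins Y hY).2]
      push_cast at hN' ⊢
      linarith
    · obtain ⟨Z, Y, W, e, hZ, hY, hW, he, hN'⟩ := ih' (N - 7 * a k) (by omega) (by omega)
      refine ⟨insert k Z, insert k Y, W, e, (hins Z hZ).1, (hins Y hY).1, hmono W hW, he, ?_⟩
      rw [(hins Z hZ).2, (hins Y hY).2]
      push_cast at hN' ⊢
      linarith

/-- every `m` which is not a sum of distinct terms is hit by smaller sums -/
lemma rep (ha : Bd a) : ∀ m : ℕ, (¬ ∃ I : Finset ℕ, m = ∑ i ∈ I, a i) →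
    ∃ (Z Y W : Finset ℕ) (e : ℤ), (∑ i ∈ Z, a i) < m ∧ (∑ i ∈ Y, a i) < m ∧
      (∑ i ∈ W, a i) < m ∧ |e| ≤ 4 ∧
      (2 * m : ℤ) = 2 * (∑ i ∈ Z, a i : ℕ) + 5 * ((∑ i ∈ Y, a i : ℕ) - (∑ i ∈ W, a i : ℕ)) + e := by
  intro m
  induction m using Nat.strong_induction_on with
  | _ m ih =>
    intro hm
    have hex : ∃ k, m < a k := ⟨m + 1, by have := a_ge ha (m + 1); omega⟩
    classical
    have hk := Nat.find_spec hex
    set k := Nat.find hex with hkdef
    have hmin : ∀ j, j < k → a j ≤ m := fun j hj => not_lt.1 (Nat.find_min hex hj)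
    have hk1 : 1 ≤ k := by
      by_contra hcon
      have : k = 0 := by omega
      rw [this, ha.1] at hk
      omega
    rcases lt_or_ge (∑ j ∈ Finset.range k, a j) m with hlt | hge
    · obtain ⟨hb1, hb2⟩ := ha.2 k hk1
      have h1 : (2 * m : ℤ) ≤ 7 * (∑ j ∈ Finset.range k, a j : ℕ) + 4 := by
        have : 2 * m ≤ 7 * (∑ j ∈ Finset.range k, a j) + 4 := by omega
        exact_mod_cast this
      obtain ⟨Z, Y, W, e, hZ, hY, hW, he, hN⟩ := cover ha k hk1 (2 * m)
        (by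
          have : (0 : ℤ) ≤ ((∑ j ∈ Finset.range k, a j : ℕ) : ℤ) := by positivity
          omega) h1
      exact ⟨Z, Y, W, e, (sum_le_of_subset hZ).trans_lt hlt, (sum_le_of_subset hY).trans_lt hlt,
        (sum_le_of_subset hW).trans_lt hlt, he, hN⟩
    · -- `m` lies between `a (k - 1)` and the sum
      obtain ⟨l, hl⟩ : ∃ l, k = l + 1 := ⟨k - 1, by omega⟩
      have hl1 : 1 ≤ l := by
        by_contra hcon
        have : l = 0 := by omega
        subst this
        rw [hl, Finset.sum_range_one, ha.1] at hge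
        exact hm ⟨∅, by simp; omega⟩
      have hal : a l ≤ m := hmin l (by omega)
      have hne : a l ≠ m := fun h => hm ⟨{l}, by simp [h]⟩
      have hal0 : 0 < a l := by have := a_ge ha l; omega
      rw [hl, Finset.sum_range_succ] at hge
      have hsl : ∑ j ∈ Finset.range l, a j < a l := by
        have := (ha.2 l hl1).1
        omega
      -- index sets of small sums
      have hsmall : ∀ I : Finset ℕ, ∑ i ∈ I, a i < a l → ∀ i ∈ I, i < l := by
        intro I hI i hi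
        by_contra hcon
        have h1 : a l ≤ a i := by
          rcases Nat.eq_or_lt_of_le (not_lt.1 hcon) with h | h
          · rw [h]
          · exact (a_lt ha h).le
        have h2 : a i ≤ ∑ i ∈ I, a i := Finset.single_le_sum (fun _ _ => Nat.zero_le _) hi
        omega
      have hins : ∀ I : Finset ℕ, ∑ i ∈ I, a i < a l →
          ∑ i ∈ insert l I, a i = a l + ∑ i ∈ I, a i := by
        intro I hI
        rw [Finset.sum_insert]
        intro h
        exact lt_irrefl _ (hsmall I hI l h)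
      have hm' : ¬ ∃ I : Finset ℕ, m - a l = ∑ i ∈ I, a i := by
        rintro ⟨I, hI⟩
        apply hm
        refine ⟨insert l I, ?_⟩
        rw [hins I (by omega), ← hI]
        omega
      obtain ⟨Z, Y, W, e, hZ, hY, hW, he, hN⟩ := ih (m - a l) (by omega) hm'
      refine ⟨insert l Z, Y, W, e, ?_, by omega, by omega, he, ?_⟩
      · rw [hins Z (by omega)]
        omega
      · rw [hins Z (by omega)]
        have h1 : ((m - a l : ℕ) : ℤ) = (m : ℤ) - a l := by
          push_cast [Nat.cast_sub hal]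
          ring
        rw [h1] at hN
        push_cast at hN ⊢
        linarith

lemma not_free (ha : Bd a) (n : ℕ) (hn : n ∉ blocks a) :
    ¬ Free (insert n {h | h ∈ blocks a ∧ h < n}) := by
  intro hfree
  have hm : ¬ ∃ I : Finset ℕ, n / 5 = ∑ i ∈ I, a i := by
    rintro ⟨I, hI⟩
    exact hn ⟨I, n % 5, by omega, by omega⟩
  obtain ⟨Z, Y, W, e, hZ, hY, hW, he, hN⟩ := rep ha (n / 5) hm
  rw [abs_le] at he
  obtain ⟨y0, w0, hy0, hw0, hyw⟩ : ∃ y0 w0 : ℕ, y0 ≤ 4 ∧ w0 ≤ 4 ∧ (y0 : ℤ) - w0 = e := by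
    rcases le_or_gt 0 e with h | h
    · exact ⟨e.toNat, 0, by omega, by omega, by omega⟩
    · exact ⟨0, (-e).toNat, by omega, by omega, by omega⟩
  have hmem : ∀ (I : Finset ℕ) (r : ℕ), ∑ i ∈ I, a i < n / 5 → r ≤ 4 →
      5 * (∑ i ∈ I, a i) + r ∈ insert n {h | h ∈ blocks a ∧ h < n} := by
    intro I r hI hr
    refine Set.mem_insert_of_mem _ ⟨⟨I, r, hr, rfl⟩, ?_⟩
    omega
  have h1 := hfree _ (hmem W w0 hW hw0) n (Set.mem_insert _ _) _ (hmem Y y0 hY hy0) _
    (hmem Z (n % 5) hZ (by omega)) (by omega)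
  omega

end seq

/-- the description of the greedy sequence -/
lemma greedy_step {a : ℕ → ℕ} (ha : Bd a) {g : ℕ → ℕ} (hg : IsGreedy g) (i : ℕ) :
    g '' Set.Iic i = {h | h ∈ blocks a ∧ h ≤ g i} := by
  induction i with
  | zero =>
    ext x
    simp only [Set.mem_image, Set.mem_Iic, Set.mem_ofPred_eq]
    constructor
    · rintro ⟨j, hj, rfl⟩
      obtain rfl : j = 0 := by omega
      rw [hg.1]
      exact ⟨⟨∅, 0, by omega, by simp⟩, le_rfl⟩
    · rintro ⟨-, hx⟩
      rw [hg.1] at hx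
      exact ⟨0, le_rfl, by rw [hg.1]; omega⟩
  | succ i ih =>
    obtain ⟨⟨hlt, hfree⟩, hleast⟩ := hg.2 i
    rw [ih] at hfree
    -- no element of `blocks a` strictly between
    have hbetween : ∀ h ∈ blocks a, g i < h → g (i + 1) ≤ h := by
      intro h hh hgt
      apply hleast
      refine ⟨hgt, ?_⟩
      rw [ih]
      have hsub : insert h {h | h ∈ blocks a ∧ h ≤ g i} ⊆ blocks a := by
        rintro x (rfl | hx)
        · exact hh
        · exact hx.1
      intro w hw x hx y hy z hz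
      exact blocks_free ha w (hsub hw) x (hsub hx) y (hsub hy) z (hsub hz)
    have hmem : g (i + 1) ∈ blocks a := by
      by_contra hcon
      apply not_free ha _ hcon
      have : {h | h ∈ blocks a ∧ h < g (i + 1)} = {h | h ∈ blocks a ∧ h ≤ g i} := by
        ext x
        simp only [Set.mem_ofPred_eq]
        constructor
        · rintro ⟨h1, h2⟩
          refine ⟨h1, ?_⟩
          by_contra h3
          have := hbetween x h1 (by omega)
          omega
        · rintro ⟨h1, h2⟩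
          exact ⟨h1, by omega⟩
      rw [this]
      exact hfree
    ext x
    constructor
    · rintro ⟨j, hj, rfl⟩
      rw [Set.mem_Iic] at hj
      rcases Nat.eq_or_lt_of_le hj with rfl | hj
      · exact ⟨hmem, le_rfl⟩
      · have : g j ∈ g '' Set.Iic i := ⟨j, by rw [Set.mem_Iic]; omega, rfl⟩
        rw [ih] at this
        exact ⟨this.1, this.2.trans hlt.le⟩
    · rintro ⟨h1, h2⟩
      rcases le_or_gt x (g i) with h3 | h3
      · have : x ∈ g '' Set.Iic i := by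
          rw [ih]
          exact ⟨h1, h3⟩
        obtain ⟨j, hj, rfl⟩ := this
        exact ⟨j, by rw [Set.mem_Iic] at hj ⊢; omega, rfl⟩
      · have := hbetween x h1 h3
        exact ⟨i + 1, by simp, by omega⟩

lemma greedy_ge {g : ℕ → ℕ} (hg : IsGreedy g) (i : ℕ) : i ≤ g i := by
  induction i with
  | zero => omega
  | succ i ih =>
    have := (hg.2 i).1.1
    omega

lemma greedy_range {a : ℕ → ℕ} (ha : Bd a) {g : ℕ → ℕ} (hg : IsGreedy g) :
    Set.range g = blocks a := by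
  ext x
  constructor
  · rintro ⟨i, rfl⟩
    have : g i ∈ g '' Set.Iic i := ⟨i, by simp, rfl⟩
    rw [greedy_step ha hg] at this
    exact this.1
  · intro hx
    have : x ∈ {h | h ∈ blocks a ∧ h ≤ g x} := ⟨hx, greedy_ge hg x⟩
    rw [← greedy_step ha hg] at this
    obtain ⟨j, -, hj⟩ := this
    exact ⟨j, hj⟩

/-- existence of the greedy sequence -/
lemma exists_greedy {a : ℕ → ℕ} (ha : Bd a) : ∃ g, IsGreedy g := by
  classical
  have hinf : (Set.ofPred (fun n => n ∈ blocks a)).Infinite := by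
    rw [Set.infinite_iff_exists_gt]
    intro n
    refine ⟨5 * a (n + 1), ⟨{n + 1}, 0, by omega, by simp⟩, ?_⟩
    have := a_ge ha (n + 1)
    omega
  refine ⟨Nat.nth (fun n => n ∈ blocks a), ?_, ?_⟩
  · rw [Nat.nth_zero]
    have h0 : (0 : ℕ) ∈ {n | n ∈ blocks a} := ⟨∅, 0, by omega, by simp⟩
    exact Nat.sInf_eq_zero.2 (Or.inl h0)
  · intro i
    have himg : Nat.nth (fun n => n ∈ blocks a) '' Set.Iic i =
        {h | h ∈ blocks a ∧ h ≤ Nat.nth (fun n => n ∈ blocks a) i} := by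
      ext x
      constructor
      · rintro ⟨j, hj, rfl⟩
        exact ⟨Nat.nth_mem_of_infinite hinf j, (Nat.nth_strictMono hinf).monotone hj⟩
      · rintro ⟨h1, h2⟩
        obtain ⟨j, rfl⟩ : x ∈ Set.range (Nat.nth (fun n => n ∈ blocks a)) := by
          rw [Nat.range_nth_of_infinite hinf]
          exact h1
        exact ⟨j, (Nat.nth_strictMono hinf).le_iff_le.1 h2, rfl⟩
    rw [himg]
    refine ⟨⟨Nat.nth_strictMono hinf (Nat.lt_succ_self i), ?_⟩, ?_⟩
    · have hsub : insert (Nat.nth (fun n => n ∈ blocks a) (i + 1))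
          {h | h ∈ blocks a ∧ h ≤ Nat.nth (fun n => n ∈ blocks a) i} ⊆ blocks a := by
        rintro x (rfl | hx)
        · exact Nat.nth_mem_of_infinite hinf _
        · exact hx.1
      intro w hw x hx y hy z hz
      exact blocks_free ha w (hsub hw) x (hsub hx) y (hsub hy) z (hsub hz)
    · rintro n ⟨h1, h2⟩
      by_contra hcon
      rw [not_le] at hcon
      have hnot : n ∉ blocks a := by
        intro hn
        obtain ⟨j, rfl⟩ : n ∈ Set.range (Nat.nth (fun n => n ∈ blocks a)) := by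
          rw [Nat.range_nth_of_infinite hinf]
          exact hn
        have h3 := (Nat.nth_strictMono hinf).lt_iff_lt.1 h1
        have h4 := (Nat.nth_strictMono hinf).lt_iff_lt.1 hcon
        omega
      apply not_free ha n hnot
      have : {h | h ∈ blocks a ∧ h < n} =
          {h | h ∈ blocks a ∧ h ≤ Nat.nth (fun n => n ∈ blocks a) i} := by
        ext x
        constructor
        · rintro ⟨h3, h4⟩
          refine ⟨h3, ?_⟩
          obtain ⟨j, rfl⟩ : x ∈ Set.range (Nat.nth (fun n => n ∈ blocks a)) := by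
            rw [Nat.range_nth_of_infinite hinf]
            exact h3
          apply (Nat.nth_strictMono hinf).monotone
          have h5 := (Nat.nth_strictMono hinf).lt_iff_lt.1 (lt_trans h4 hcon)
          omega
        · rintro ⟨h3, h4⟩
          exact ⟨h3, lt_of_le_of_lt h4 h1⟩
      rw [this]
      exact h2

/-- **The greedy set avoiding `5w + 2x = 5y + 2z`**: with the ceilings in the recursion the
description by blocks holds, and with the floors it fails. -/
theorem result : (∃ g, IsGreedy g) ∧ (∃ a, IsCeilSeq a) ∧ (∃ a, IsFloorSeq a) ∧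
    ∀ g, IsGreedy g → (∀ a, IsCeilSeq a → Set.range g = blocks a) ∧
      (∀ a, IsFloorSeq a → Set.range g ≠ blocks a) := by
  have hceil : ∃ a, IsCeilSeq a := by
    obtain ⟨a, ha0, ha⟩ := exists_seq (fun n => (n + 1) / 2)
    refine ⟨a, ha0, ?_⟩
    intro i hi
    have h2 : ((5 : ℚ) + 7 * ∑ j ∈ Finset.range i, (a j : ℚ)) / 2 =
        ((5 + 7 * ∑ j ∈ Finset.range i, a j : ℕ) : ℚ) / 2 := by push_cast; ring
    rw [h2, ceil_half]
    exact ha i hi
  have hfloor : ∃ a, IsFloorSeq a := by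
    obtain ⟨a, ha0, ha⟩ := exists_seq (fun n => n / 2)
    refine ⟨a, ha0, ?_⟩
    intro i hi
    have h2 : ((5 : ℚ) + 7 * ∑ j ∈ Finset.range i, (a j : ℚ)) / 2 =
        ((5 + 7 * ∑ j ∈ Finset.range i, a j : ℕ) : ℚ) / 2 := by push_cast; ring
    rw [h2, floor_half]
    exact ha i hi
  have hbd : ∀ a, IsCeilSeq a → Bd a := fun a ha => ⟨ha.1, fun i hi => ceil_bounds ha i hi⟩
  obtain ⟨a, ha⟩ := hceil
  refine ⟨exists_greedy (hbd a ha), ⟨a, ha⟩, hfloor, ?_⟩
  intro g hg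
  refine ⟨fun a ha => greedy_range (hbd a ha) hg, ?_⟩
  intro b hb heq
  rw [greedy_range (hbd a ha) hg] at heq
  have hb1 : b 1 = 2 := by
    have := hb.2 1 le_rfl
    rw [Finset.sum_range_one, hb.1] at this
    norm_num at this
    exact this
  have h10 : 10 ∈ blocks a := by
    rw [heq]
    exact ⟨{1}, 0, by omega, by simp [hb1]⟩
  have h4 : 4 ∈ blocks a := ⟨∅, 4, by omega, by simp⟩
  have h0 : 0 ∈ blocks a := ⟨∅, 0, by omega, by simp⟩
  have := blocks_free (hbd a ha) 0 h0 10 h10 4 h4 0 h0 (by norm_num)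
  omega

end Pool.Agent.Results.MP_cb51c9_co.GreedyFiveTwo
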